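import Pool.Agent.K1H92.ZO.Defs

/-!
# Invariance under quaternion multiplication: almost every section is constant
-/

set_option autoImplicit false

open MeasureTheory MeasureTheory.Measure Set

namespace Pool.Agent.K1H63.ZO

open Pool.Agent.K1H92.ZO

/-- linear isomorphisms pull null sets back to null sets -/
theorem qmp_lin {E F : Type*} [NormedAddCommGroup E] [NormedSpace ℝ E] [FiniteDimensional ℝ E]
    [MeasurableSpace E] [BorelSpace E] [NormedAddCommGroup F] [NormedSpace ℝ F]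
    [FiniteDimensional ℝ F] [MeasurableSpace F] [BorelSpace F] (μ : Measure E) (ν : Measure F)
    [μ.IsAddHaarMeasure] [ν.IsAddHaarMeasure] (L : E ≃ₗ[ℝ] F) :
    QuasiMeasurePreserving L μ ν := by
  let Lc := L.toContinuousLinearEquiv
  have h1 : (μ.map Lc).IsAddHaarMeasure := Lc.isAddHaarMeasure_map μ
  refine ⟨Lc.continuous.measurable, ?_⟩
  exact absolutelyContinuous_isAddHaarMeasure (μ.map Lc) ν

/-- the vector product -/
def cr (v w : V) : V := ![v 1 * w 2 - v 2 * w 1, v 2 * w 0 - v 0 * w 2, v 0 * w 1 - v 1 * w 0]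

theorem smul_qmul_snd (c x y : ℝ) (v w : V) :
    (c • qmul (x, v) (y, w)).2 = c • (x • w + y • v + cr v w) := by
  funext i
  fin_cases i <;> rfl

theorem nsq_qmul (p q : X) : nsq (qmul p q) = nsq p * nsq q := by
  simp only [nsq, qmul, Matrix.cons_val_zero, Matrix.cons_val_one, Matrix.cons_val]
  ring

theorem nsq_eq_zero {p : X} (h : nsq p = 0) : p = 0 := by
  unfold nsq at h
  have h1 : p.1 ^ 2 = 0 := by
    nlinarith [sq_nonneg p.1, sq_nonneg (p.2 0), sq_nonneg (p.2 1), sq_nonneg (p.2 2)]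
  have h2 : (p.2 0) ^ 2 = 0 := by
    nlinarith [sq_nonneg p.1, sq_nonneg (p.2 0), sq_nonneg (p.2 1), sq_nonneg (p.2 2)]
  have h3 : (p.2 1) ^ 2 = 0 := by
    nlinarith [sq_nonneg p.1, sq_nonneg (p.2 0), sq_nonneg (p.2 1), sq_nonneg (p.2 2)]
  have h4 : (p.2 2) ^ 2 = 0 := by
    nlinarith [sq_nonneg p.1, sq_nonneg (p.2 0), sq_nonneg (p.2 1), sq_nonneg (p.2 2)]
  have k1 : p.1 = 0 := by simpa using h1
  have k2 : p.2 0 = 0 := by simpa using h2
  have k3 : p.2 1 = 0 := by simpa using h3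
  have k4 : p.2 2 = 0 := by simpa using h4
  refine Prod.ext k1 ?_
  funext i
  fin_cases i
  · exact k2
  · exact k3
  · exact k4

/-- multiplication by a quaternion and a real number -/
def rmul (c : ℝ) (q : X) : X →ₗ[ℝ] X where
  toFun p := c • qmul p q
  map_add' p p' := by
    refine Prod.ext ?_ ?_
    · simp [qmul]; ring
    · funext i
      fin_cases i <;> simp [qmul] <;> ring
  map_smul' r p := by
    refine Prod.ext ?_ ?_
    · simp [qmul]; ring
    · funext i
      fin_cases i <;> simp [qmul] <;> ring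

theorem rmul_inj {c : ℝ} {q : X} (hc : c ≠ 0) (hq : nsq q ≠ 0) : Function.Injective (rmul c q) := by
  rw [← LinearMap.ker_eq_bot, LinearMap.ker_eq_bot']
  intro p hp
  have h1 : c • qmul p q = 0 := hp
  have h2 : qmul p q = 0 := (smul_eq_zero.1 h1).resolve_left hc
  have h3 : nsq p * nsq q = 0 := by
    rw [← nsq_qmul, h2]
    simp [nsq]
  exact nsq_eq_zero ((mul_eq_zero.1 h3).resolve_right hq)

theorem haarX : (volume : Measure X).IsAddHaarMeasure :=
  Measure.prod.instIsAddHaarMeasure volume volume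

theorem rmul_qmp {c : ℝ} {q : X} (hc : c ≠ 0) (hq : nsq q ≠ 0) :
    QuasiMeasurePreserving (fun p : X => c • qmul p q) volume volume := by
  have := haarX
  exact qmp_lin volume volume (LinearEquiv.ofInjectiveEndo (rmul c q) (rmul_inj hc hq))

theorem ae_nsq : ∀ᵐ p : X, nsq p ≠ 0 := by
  have := haarX
  have h1 : ∀ᵐ p : X, p ≠ 0 := by
    rw [ae_iff]
    simp only [ne_eq, not_not, ofPred_eq_eq_singleton]
    exact measure_singleton 0
  filter_upwards [h1] with p hp h
  exact hp (nsq_eq_zero h)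

/-- the reordering of the variables -/
def Th : ((V × V) × V) ≃ₗ[ℝ] (X × (ℝ × X)) where
  toFun z := ((z.2 1, z.1.2), (z.2 2, (z.2 0, z.1.1)))
  map_add' z z' := rfl
  map_smul' c z := rfl
  invFun y := ((y.2.2.2, y.1.2), ![y.2.2.1, y.1.1, y.2.1])
  left_inv z := by
    refine Prod.ext rfl ?_
    funext i
    fin_cases i <;> rfl
  right_inv y := rfl

/-- coordinates -/
def eV : (ℝ × (ℝ × ℝ)) ≃ₗ[ℝ] V where
  toFun z := ![z.2.1, z.2.2, z.1]
  map_add' z z' := by
    funext i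
    fin_cases i <;> simp
  map_smul' c z := by
    funext i
    fin_cases i <;> simp
  invFun y := (y 2, (y 0, y 1))
  left_inv z := rfl
  right_inv y := by
    funext i
    fin_cases i <;> rfl

/-- the linear map `b ↦ b₀ w + b₁ v + b₂ (v × w)` -/
def lmap (v w : V) : V →ₗ[ℝ] V where
  toFun b := b 0 • w + b 1 • v + b 2 • cr v w
  map_add' b b' := by
    simp only [Pi.add_apply]
    module
  map_smul' r b := by
    simp only [Pi.smul_apply, smul_eq_mul, RingHom.id_apply]
    module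

theorem lmap_inj {v w : V} (h : v 0 * w 1 - v 1 * w 0 ≠ 0) : Function.Injective (lmap v w) := by
  rw [← LinearMap.ker_eq_bot, LinearMap.ker_eq_bot']
  intro b hb
  have h0 : b 0 * w 0 + b 1 * v 0 + b 2 * (v 1 * w 2 - v 2 * w 1) = 0 :=
    congrFun hb 0
  have h1 : b 0 * w 1 + b 1 * v 1 + b 2 * (v 2 * w 0 - v 0 * w 2) = 0 :=
    congrFun hb 1
  have h2 : b 0 * w 2 + b 1 * v 2 + b 2 * (v 0 * w 1 - v 1 * w 0) = 0 :=
    congrFun hb 2
  have h3 : b 2 * ((v 1 * w 2 - v 2 * w 1) ^ 2 + (v 2 * w 0 - v 0 * w 2) ^ 2 +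
      (v 0 * w 1 - v 1 * w 0) ^ 2) = 0 := by
    linear_combination (v 1 * w 2 - v 2 * w 1) * h0 + (v 2 * w 0 - v 0 * w 2) * h1 +
      (v 0 * w 1 - v 1 * w 0) * h2
  have hpos : 0 < (v 1 * w 2 - v 2 * w 1) ^ 2 + (v 2 * w 0 - v 0 * w 2) ^ 2 +
      (v 0 * w 1 - v 1 * w 0) ^ 2 := by
    have := sq_pos_of_ne_zero h
    positivity
  have hb2 : b 2 = 0 := (mul_eq_zero.1 h3).resolve_right hpos.ne'
  rw [hb2] at h0 h1
  have hb0 : b 0 * (v 0 * w 1 - v 1 * w 0) = 0 := by
    linear_combination v 0 * h1 - v 1 * h0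
  have hb1 : b 1 * (v 0 * w 1 - v 1 * w 0) = 0 := by
    linear_combination w 1 * h0 - w 0 * h1
  funext i
  fin_cases i
  · exact (mul_eq_zero.1 hb0).resolve_right h
  · exact (mul_eq_zero.1 hb1).resolve_right h
  · exact hb2

theorem stepD (v w : V) (hcr : v 0 * w 1 - v 1 * w 0 ≠ 0) (A : Set V) (hA : MeasurableSet A)
    (h : ∀ᵐ a : V, a 2 • (a 0 • w + a 1 • v + cr v w) ∉ A) : ∀ᵐ u : V, u ∉ A := by
  have h1 : (volume : Measure (ℝ × ℝ)).IsAddHaarMeasure :=
    Measure.prod.instIsAddHaarMeasure volume volume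
  have h2 : (volume : Measure (ℝ × (ℝ × ℝ))).IsAddHaarMeasure :=
    Measure.prod.instIsAddHaarMeasure volume volume
  let L : V ≃ₗ[ℝ] V := LinearEquiv.ofInjectiveEndo (lmap v w) (lmap_inj hcr)
  have hL : ∀ b, L b = b 0 • w + b 1 • v + b 2 • cr v w := fun b => rfl
  let A' : Set (ℝ × (ℝ × ℝ)) := {z | L (eV z) ∈ A}
  have hcont : Continuous fun z => L (eV z) :=
    (L.toContinuousLinearEquiv.continuous).comp (eV.toContinuousLinearEquiv.continuous)
  have hA' : MeasurableSet A' := hcont.measurable hA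
  have hnull : volume A' = 0 := by
    have h3 := (qmp_lin volume volume eV).ae h
    rw [volume_eq_prod] at h3
    have h4 := ae_ae_of_ae_prod h3
    rw [volume_eq_prod, measure_prod_null hA']
    have hc0 : ∀ᵐ c : ℝ, c ≠ 0 := by
      rw [ae_iff]
      simp only [ne_eq, not_not, ofPred_eq_eq_singleton]
      exact measure_singleton 0
    filter_upwards [h4, hc0] with c hc hc'
    show volume (Prod.mk c ⁻¹' A') = 0
    have h5 : volume ((fun z : ℝ × ℝ => c • z) ⁻¹' (Prod.mk c ⁻¹' A')) = 0 := by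
      rw [measure_eq_zero_iff_ae_notMem]
      filter_upwards [hc] with z hz hz'
      refine hz ?_
      have h6 : L (eV (c, c • z)) ∈ A := hz'
      rw [hL] at h6
      have h7 : eV (c, z) 2 • (eV (c, z) 0 • w + eV (c, z) 1 • v + cr v w) =
          eV (c, c • z) 0 • w + eV (c, c • z) 1 • v + eV (c, c • z) 2 • cr v w := by
        show c • (z.1 • w + z.2 • v + cr v w) = (c • z.1) • w + (c • z.2) • v + c • cr v w
        rw [smul_add, smul_add, smul_smul, smul_smul]
        rfl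
      rw [h7]
      exact h6
    rw [addHaar_preimage_smul volume hc'] at h5
    rcases mul_eq_zero.1 h5 with h8 | h8
    · exfalso
      rw [ENNReal.ofReal_eq_zero] at h8
      have : 0 < |(c ^ Module.finrank ℝ (ℝ × ℝ))⁻¹| := abs_pos.2 (inv_ne_zero (pow_ne_zero _ hc'))
      linarith
    · exact h8
  have h9 : ∀ᵐ z : ℝ × (ℝ × ℝ), L (eV z) ∉ A := measure_eq_zero_iff_ae_notMem.1 hnull
  have h10 := (qmp_lin volume volume (L.symm.trans eV.symm)).ae h9
  filter_upwards [h10] with u hu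
  simpa using hu

theorem ae_cr : ∀ᵐ z : V × V, z.1 0 * z.2 1 - z.1 1 * z.2 0 ≠ 0 := by
  have hm : MeasurableSet {z : V × V | z.1 0 * z.2 1 - z.1 1 * z.2 0 = 0} := by
    apply IsClosed.measurableSet
    exact isClosed_eq (by fun_prop) continuous_const
  rw [ae_iff]
  simp only [ne_eq, not_not]
  rw [volume_eq_prod, measure_prod_null hm]
  have h0 : ∀ᵐ v : V, v 0 ≠ 0 := by
    rw [ae_iff]
    simp only [ne_eq, not_not]
    have h1 : {v : V | v 0 = 0} = ((LinearMap.ker (LinearMap.proj 0 : V →ₗ[ℝ] ℝ) : Submodule ℝ V) :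
        Set V) := by
      ext v
      simp
    rw [h1]
    refine addHaar_submodule volume _ ?_
    intro htop
    have h2 : (fun _ => 1 : V) ∈ (LinearMap.ker (LinearMap.proj 0 : V →ₗ[ℝ] ℝ)) := by
      rw [htop]; trivial
    simp at h2
  filter_upwards [h0] with v hv
  show volume (Prod.mk v ⁻¹' {z : V × V | z.1 0 * z.2 1 - z.1 1 * z.2 0 = 0}) = 0
  let l : V →ₗ[ℝ] ℝ := v 0 • LinearMap.proj 1 - v 1 • LinearMap.proj 0
  have h1 : Prod.mk v ⁻¹' {z : V × V | z.1 0 * z.2 1 - z.1 1 * z.2 0 = 0} =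
      ((LinearMap.ker l : Submodule ℝ V) : Set V) := by
    ext w
    simp [l]
  rw [h1]
  refine addHaar_submodule volume _ ?_
  intro htop
  have h2 : (![0, 1, 0] : V) ∈ (LinearMap.ker l) := by
    rw [htop]; trivial
  simp [l] at h2
  exact hv h2

theorem core2a (S : Set (X × X)) (D : Set (V × V)) (hS : MeasurableSet S) (hD : MeasurableSet D)
    (h : ∀ᵐ z : X × X, (z ∈ S ↔ (z.1.2, z.2.2) ∈ D))
    (hmul : ∀ p q, nsq p ≠ 0 → nsq q ≠ 0 → ((qmul p q, q) ∈ S ↔ (p, q) ∈ S))
    (hsc : ∀ (c : ℝ) p q, c ≠ 0 → ((c • p, q) ∈ S ↔ (p, q) ∈ S)) :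
    ∀ᵐ z : V × V, ∀ᵐ u : V, (z ∈ D ↔ (u, z.2) ∈ D) := by
  have := haarX
  -- (a)
  have hsw : ∀ᵐ q : X, ∀ᵐ p : X, ((p, q) ∈ S ↔ (p.2, q.2) ∈ D) := by
    have h1 : ∀ᵐ z : X × X ∂(volume.prod volume), (z.swap ∈ S ↔ (z.swap.1.2, z.swap.2.2) ∈ D) :=
      (measurePreserving_swap (μ := (volume : Measure X))
        (ν := (volume : Measure X))).quasiMeasurePreserving.ae h
    exact ae_ae_of_ae_prod h1
  have hA : ∀ᵐ q : X, ∀ c : ℝ, c ≠ 0 →
      ∀ᵐ p : X, ((p.2, q.2) ∈ D ↔ ((c • qmul p q).2, q.2) ∈ D) := by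
    filter_upwards [hsw, ae_nsq] with q hq hq0 c hc
    have h1 := (rmul_qmp hc hq0).ae hq
    filter_upwards [hq, h1, ae_nsq] with p ha hb hp
    rw [← ha, ← hb, hsc c _ _ hc, hmul p q hp hq0]
  -- (b)
  let B : Set (X × (ℝ × X)) := {y | ¬ ((y.2.2.2, y.1.2) ∈ D ↔
    ((y.2.1 • qmul y.2.2 y.1).2, y.1.2) ∈ D)}
  have hB : MeasurableSet B := by
    suffices hB' : MeasurableSet {y : X × (ℝ × X) | ((y.2.2.2, y.1.2) ∈ D ↔
      ((y.2.1 • qmul y.2.2 y.1).2, y.1.2) ∈ D)} from hB'.compl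
    refine measurableSet_setOfPred.2 (Measurable.iff ?_ ?_)
    · have h1 : Measurable fun y : X × (ℝ × X) => (y.2.2.2, y.1.2) := by fun_prop
      exact measurableSet_setOfPred.1 (h1 hD)
    · have h1 : Measurable fun y : X × (ℝ × X) => ((y.2.1 • qmul y.2.2 y.1).2, y.1.2) := by
        have h2 : Continuous fun y : X × (ℝ × X) => (y.2.1 • qmul y.2.2 y.1).2 := by
          unfold qmul
          fun_prop
        exact h2.measurable.prodMk (by fun_prop)
      exact measurableSet_setOfPred.1 (h1 hD)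
  have hB0 : volume B = 0 := by
    rw [volume_eq_prod, measure_prod_null hB]
    filter_upwards [hA] with q hq
    show volume (Prod.mk q ⁻¹' B) = 0
    rw [volume_eq_prod, measure_prod_null (measurable_prodMk_left hB)]
    have hc0 : ∀ᵐ c : ℝ, c ≠ 0 := by
      rw [ae_iff]
      simp only [ne_eq, not_not, ofPred_eq_eq_singleton]
      exact measure_singleton 0
    filter_upwards [hc0] with c hc
    exact ae_iff.1 (hq c hc)
  have h1 : (volume : Measure (V × V)).IsAddHaarMeasure :=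
    Measure.prod.instIsAddHaarMeasure volume volume
  have h2 : (volume : Measure ((V × V) × V)).IsAddHaarMeasure :=
    Measure.prod.instIsAddHaarMeasure volume volume
  have h3 : (volume : Measure (ℝ × X)).IsAddHaarMeasure :=
    Measure.prod.instIsAddHaarMeasure volume volume
  have h4 : (volume : Measure (X × (ℝ × X))).IsAddHaarMeasure :=
    Measure.prod.instIsAddHaarMeasure volume volume
  have hC : ∀ᵐ t : (V × V) × V, Th t ∉ B :=
    (qmp_lin volume volume Th).ae (measure_eq_zero_iff_ae_notMem.1 hB0)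
  rw [volume_eq_prod] at hC
  have hC' := ae_ae_of_ae_prod hC
  -- (c)
  filter_upwards [hC', ae_cr] with z hz hcr
  obtain ⟨v, w⟩ := z
  let A : Set V := {u | ¬ ((v, w) ∈ D ↔ (u, w) ∈ D)}
  have hAm : MeasurableSet A := by
    suffices hA' : MeasurableSet {u : V | ((v, w) ∈ D ↔ (u, w) ∈ D)} from hA'.compl
    refine measurableSet_setOfPred.2 (Measurable.iff measurable_const ?_)
    have h5 : Measurable fun u : V => (u, w) := measurable_prodMk_right
    exact measurableSet_setOfPred.1 (h5 hD)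
  have h6 := stepD v w hcr A hAm ?_
  · filter_upwards [h6] with u hu
    by_contra hcon
    exact hu hcon
  · filter_upwards [hz] with a ha ha'
    refine ha ?_
    show ¬ ((v, w) ∈ D ↔ ((a 2 • qmul (a 0, v) (a 1, w)).2, w) ∈ D)
    rw [smul_qmul_snd]
    exact ha'

end Pool.Agent.K1H63.ZO
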